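import Mathlib
import Pool.Agent.Helper136.WL.All

set_option autoImplicit false
open Filter Topology

namespace Pool.Agent.Results.MP_bd2462_an.LipschitzLifting
open WL136

/-- X a real Banach space, Y a closed subspace such that the quotient map of X onto X/Y has a
Lipschitz right inverse s. Then X is Lipschitz homeomorphic to the product Y x X/Y, and X has an
equivalent weakly uniformly rotund norm iff Y x X/Y has one. -/
theorem result (X : Type) [NormedAddCommGroup X] [NormedSpace ℝ X] [CompleteSpace X]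
    (Y : Submodule ℝ X) (hYc : IsClosed (Y : Set X)) (s : X ⧸ Y → X) (K : NNReal)
    (hs : LipschitzWith K s) (hq : ∀ z, Y.mkQ (s z) = z) :
    (∃ (e : X ≃ (Y × (X ⧸ Y))) (A B : NNReal), LipschitzWith A e ∧ LipschitzWith B e.symm) ∧
      (HasWUR X ↔ HasWUR (Y × (X ⧸ Y))) := by
  refine ⟨lip_homeo Y s K hs hq, fun h => ?_, fun h => ?_⟩
  · have hY : HasWUR Y := by
      obtain ⟨E, _, _, _, E4⟩ := exists_ext Y s K hs hq
      obtain ⟨N, n1, n2, ⟨c, C, hc, hC, n3⟩, n4⟩ := h
      refine ⟨fun y => N (y : X), fun x y => n1 _ _, fun a x => n2 _ _,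
        ⟨c, C, hc, hC, fun x => n3 _⟩, ?_⟩
      intro u v hu hv huv f
      have h1 := n4 (fun n => (u n : X)) (fun n => (v n : X)) hu hv huv (E f)
      refine h1.congr fun n => ?_
      exact E4 f (u n - v n)
    exact hasWUR_prod hY (hasWUR_quot Y h)
  · have hY : HasWUR Y := hasWUR_sub (LinearMap.inl ℝ Y (X ⧸ Y))
      (fun x => by simp [Prod.norm_def]) (ContinuousLinearMap.fst ℝ Y (X ⧸ Y)) (fun x => rfl) h
    have hV : HasWUR (X ⧸ Y) := hasWUR_sub (LinearMap.inr ℝ Y (X ⧸ Y))
      (fun x => by simp [Prod.norm_def]) (ContinuousLinearMap.snd ℝ Y (X ⧸ Y)) (fun x => rfl) h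
    exact hasWUR_of_section Y s K hs hq hY hV

end Pool.Agent.Results.MP_bd2462_an.LipschitzLifting
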